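import Pool.Agent.W23.PL.Defs
import Pool.Agent.Helper256.KM.Mertens

/-!
SMO: smooth parts of `a - p` (Rankin's trick).
-/

namespace Pool.Agent.W214.PL

open Finset
open Pool.Agent.W23.PL
open Pool.Agent.Helper256.KM (mertens_log)

/-- `n ^ α` -/
noncomputable def pw (α : ℝ) : ArithmeticFunction ℝ :=
  ⟨fun n => if n = 0 then 0 else (n : ℝ) ^ α, by simp⟩

lemma pw_apply (α : ℝ) {n : ℕ} (hn : n ≠ 0) : pw α n = (n : ℝ) ^ α := by
  simp [pw, hn]

lemma pw_mult (α : ℝ) : (pw α).IsMultiplicative := by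
  rw [ArithmeticFunction.IsMultiplicative.iff_ne_zero]
  refine ⟨by simp [pw], fun {m n} hm hn _ => ?_⟩
  rw [pw_apply _ hm, pw_apply _ hn, pw_apply _ (mul_ne_zero hm hn)]
  push_cast
  exact Real.mul_rpow (Nat.cast_nonneg _) (Nat.cast_nonneg _)

/-- `h = μ * (n ^ α)` -/
noncomputable def hf (α : ℝ) : ArithmeticFunction ℝ :=
  (ArithmeticFunction.moebius : ArithmeticFunction ℝ) * pw α

lemma hf_mult (α : ℝ) : (hf α).IsMultiplicative :=
  (ArithmeticFunction.isMultiplicative_moebius.intCast).mul (pw_mult α)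

lemma hf_sum (α : ℝ) {m : ℕ} (hm : m ≠ 0) : ∑ d ∈ m.divisors, hf α d = (m : ℝ) ^ α := by
  rw [← pw_apply α hm, ← ArithmeticFunction.coe_zeta_mul_apply, hf, ← mul_assoc,
    ArithmeticFunction.coe_zeta_mul_coe_moebius, one_mul]

lemma hf_pow (α : ℝ) {p : ℕ} (hp : p.Prime) (k : ℕ) :
    hf α (p ^ (k + 1)) = ((p : ℝ) ^ α - 1) * ((p : ℝ) ^ α) ^ k := by
  have h1 := hf_sum α (m := p ^ (k + 1)) (pow_ne_zero _ hp.ne_zero)
  have h2 := hf_sum α (m := p ^ k) (pow_ne_zero _ hp.ne_zero)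
  rw [Nat.divisors_prime_pow hp, Finset.sum_map] at h1 h2
  rw [Finset.sum_range_succ] at h1
  have h3 : hf α (p ^ (k + 1)) = ((p ^ (k + 1) : ℕ) : ℝ) ^ α - ((p ^ k : ℕ) : ℝ) ^ α := by
    rw [← h1, ← h2]
    simp
  have hp0 : (0 : ℝ) ≤ (p : ℝ) := Nat.cast_nonneg _
  rw [h3]
  push_cast
  rw [← Real.rpow_natCast, ← Real.rpow_natCast, ← Real.rpow_mul hp0, ← Real.rpow_mul hp0,
    mul_comm _ α, mul_comm _ α, Real.rpow_mul hp0, Real.rpow_mul hp0, Real.rpow_natCast,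
    Real.rpow_natCast]
  ring

lemma one_le_rpow_prime {α : ℝ} (hα : 0 ≤ α) {p : ℕ} (hp : p.Prime) : 1 ≤ (p : ℝ) ^ α :=
  Real.one_le_rpow (by exact_mod_cast hp.one_lt.le) hα

lemma hf_nonneg {α : ℝ} (hα : 0 ≤ α) (n : ℕ) : 0 ≤ hf α n := by
  rcases Nat.eq_zero_or_pos n with rfl | hn
  · simp
  rw [ArithmeticFunction.IsMultiplicative.multiplicative_factorization _ (hf_mult α) hn.ne',
    Finsupp.prod]
  refine Finset.prod_nonneg fun p hp => ?_
  have hpp : p.Prime := Nat.prime_of_mem_primeFactors hp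
  obtain ⟨k, hk⟩ : ∃ k, n.factorization p = k + 1 := by
    refine ⟨n.factorization p - 1, ?_⟩
    have : n.factorization p ≠ 0 := Finsupp.mem_support_iff.1 hp
    omega
  rw [hk, hf_pow α hpp k]
  have := one_le_rpow_prime hα hpp
  refine mul_nonneg (by linarith) (by positivity)

/-- the summand -/
noncomputable def Fq (α : ℝ) (n : ℕ) : ℝ := hf α n / (Nat.totient n : ℝ)

lemma Fq_one (α : ℝ) : Fq α 1 = 1 := by
  simp [Fq, (hf_mult α).1]

lemma Fq_mul (α : ℝ) {m n : ℕ} (h : m.Coprime n) : Fq α (m * n) = Fq α m * Fq α n := by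
  unfold Fq
  rw [(hf_mult α).2 h, Nat.totient_mul h]
  push_cast
  rw [mul_div_mul_comm]

lemma Fq_nonneg {α : ℝ} (hα : 0 ≤ α) (n : ℕ) : 0 ≤ Fq α n :=
  div_nonneg (hf_nonneg hα n) (Nat.cast_nonneg _)

lemma Fq_pow (α : ℝ) {p : ℕ} (hp : p.Prime) (k : ℕ) :
    Fq α (p ^ (k + 1)) = ((p : ℝ) ^ α - 1) / ((p : ℝ) - 1) * ((p : ℝ) ^ α / p) ^ k := by
  unfold Fq
  rw [hf_pow α hp, Nat.totient_prime_pow_succ hp]
  have hp1 : (1 : ℝ) < p := by exact_mod_cast hp.one_lt
  rw [Nat.cast_mul, Nat.cast_pow, Nat.cast_sub hp.one_lt.le]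
  rw [div_pow]
  have h1 : (p : ℝ) - 1 ≠ 0 := by linarith
  have h2 : (p : ℝ) ≠ 0 := by linarith
  field_simp
  rw [Nat.cast_one, mul_div_assoc, div_self h1, mul_one]

lemma ratio_le {α : ℝ} (hα2 : α ≤ 1 / 2) {p : ℕ} (hp : p.Prime) :
    0 ≤ (p : ℝ) ^ α / p ∧ (p : ℝ) ^ α / p ≤ 3 / 4 := by
  have hp2 : (2 : ℝ) ≤ p := by exact_mod_cast hp.two_le
  refine ⟨by positivity, ?_⟩
  have h1 : (p : ℝ) ^ α ≤ (p : ℝ) ^ (1 / 2 : ℝ) :=
    Real.rpow_le_rpow_of_exponent_le (by linarith) hα2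
  have h2 : (p : ℝ) ^ (1 / 2 : ℝ) = Real.sqrt p := (Real.sqrt_eq_rpow _).symm
  rw [div_le_iff₀ (by linarith)]
  have h3 : Real.sqrt p ≤ 3 / 4 * p := by
    rw [Real.sqrt_le_left (by linarith)]
    nlinarith
  linarith [h1, h2 ▸ h3]

lemma Fq_tsum {α : ℝ} (hα : 0 ≤ α) (hα2 : α ≤ 1 / 2) {p : ℕ} (hp : p.Prime) :
    Summable (fun n : ℕ => ‖Fq α (p ^ n)‖) ∧
      ∑' n : ℕ, Fq α (p ^ n) ≤ 1 + 8 * ((p : ℝ) ^ α - 1) / p := by
  obtain ⟨hr0, hr1⟩ := ratio_le hα2 hp
  set r := (p : ℝ) ^ α / p with hr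
  have hp2 : (2 : ℝ) ≤ p := by exact_mod_cast hp.two_le
  have h1a := one_le_rpow_prime hα hp
  have hgeo : Summable (fun k : ℕ => ((p : ℝ) ^ α - 1) / ((p : ℝ) - 1) * r ^ k) :=
    (summable_geometric_of_lt_one hr0 (by linarith)).mul_left _
  have hS : Summable (fun n : ℕ => Fq α (p ^ n)) := by
    rw [← summable_nat_add_iff 1]
    refine hgeo.congr fun k => ?_
    rw [Fq_pow α hp]
  refine ⟨hS.norm, ?_⟩
  rw [hS.tsum_eq_zero_add]
  rw [pow_zero, Fq_one]
  have h2 : ∑' k : ℕ, Fq α (p ^ (k + 1)) = ((p : ℝ) ^ α - 1) / ((p : ℝ) - 1) * (1 - r)⁻¹ := by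
    rw [← tsum_geometric_of_lt_one hr0 (by linarith), ← tsum_mul_left]
    exact tsum_congr fun k => Fq_pow α hp k
  rw [h2]
  have h3 : (1 - r)⁻¹ ≤ 4 := by
    rw [inv_le_comm₀ (by linarith) (by norm_num)]
    linarith
  have h4 : ((p : ℝ) ^ α - 1) / ((p : ℝ) - 1) ≤ 2 * ((p : ℝ) ^ α - 1) / p := by
    rw [div_le_div_iff₀ (by linarith) (by linarith)]
    nlinarith
  have h5 : 0 ≤ ((p : ℝ) ^ α - 1) / ((p : ℝ) - 1) := div_nonneg (by linarith) (by linarith)
  have h6 : ((p : ℝ) ^ α - 1) / ((p : ℝ) - 1) * (1 - r)⁻¹ ≤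
      (2 * ((p : ℝ) ^ α - 1) / p) * 4 := by
    refine mul_le_mul h4 h3 ?_ (le_trans h5 h4)
    exact inv_nonneg.2 (by linarith)
  have h7 : (2 * ((p : ℝ) ^ α - 1) / p) * 4 = 8 * ((p : ℝ) ^ α - 1) / p := by ring
  linarith

/-- `p ^ α - 1 ≤ 2 α log p` if `α log p ≤ 1` -/
lemma rpow_sub_one_le {α : ℝ} (hα : 0 ≤ α) {p : ℕ} (hp : p.Prime) (h : α * Real.log p ≤ 1) :
    (p : ℝ) ^ α - 1 ≤ 2 * (α * Real.log p) := by
  have hp1 : (1 : ℝ) < p := by exact_mod_cast hp.one_lt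
  have hlog : 0 ≤ Real.log p := Real.log_nonneg hp1.le
  rw [Real.rpow_def_of_pos (by linarith), mul_comm (Real.log _) α]
  have h0 : 0 ≤ α * Real.log p := mul_nonneg hα hlog
  have := Real.abs_exp_sub_one_le (x := α * Real.log p) (by rwa [abs_of_nonneg h0])
  rw [abs_of_nonneg h0] at this
  exact (le_abs_self _).trans this

/-- Rankin's sum over smooth numbers -/
lemma rankin_sum {α : ℝ} (hα : 0 ≤ α) (hα2 : α ≤ 1 / 2) (Y : ℕ)
    (hY : ∀ p : ℕ, p.Prime → p < Y → α * Real.log p ≤ 1) (T : Finset ℕ)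
    (hT : ∀ d ∈ T, d ≠ 0 ∧ ∀ l : ℕ, l.Prime → l ∣ d → l < Y) :
    ∑ d ∈ T, Fq α d ≤ Real.exp (16 * α * ∑ p ∈ Y.primesBelow, Real.log p / p) := by
  have h1 := EulerProduct.summable_and_hasSum_smoothNumbers_prod_primesBelow_tsum (f := Fq α)
    (Fq_one α) (fun h => Fq_mul α h) (fun hp => (Fq_tsum hα hα2 hp).1) Y
  have h2 : HasSum (fun n => (Nat.smoothNumbers Y).indicator (Fq α) n)
      (∏ p ∈ Y.primesBelow, ∑' n : ℕ, Fq α (p ^ n)) :=
    hasSum_subtype_iff_indicator.1 h1.2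
  have h3 : ∑ d ∈ T, Fq α d = ∑ d ∈ T, (Nat.smoothNumbers Y).indicator (Fq α) d := by
    refine Finset.sum_congr rfl fun d hd => ?_
    rw [Set.indicator_of_mem]
    rw [Nat.mem_smoothNumbers']
    exact fun p hp hpd => (hT d hd).2 p hp hpd
  rw [h3]
  have h4 := sum_le_hasSum T (fun n _ => Set.indicator_nonneg (fun m _ => Fq_nonneg hα m) n) h2
  refine h4.trans ?_
  rw [Finset.mul_sum, Real.exp_sum]
  refine Finset.prod_le_prod (fun p _ => tsum_nonneg fun n => Fq_nonneg hα _) fun p hp => ?_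
  have hpp := Nat.prime_of_mem_primesBelow hp
  have hpY := Nat.lt_of_mem_primesBelow hp
  have hp0 : (0 : ℝ) < p := by exact_mod_cast hpp.pos
  have h5 := rpow_sub_one_le hα hpp (hY p hpp hpY)
  have h6 := (Fq_tsum hα hα2 hpp).2
  have h7 : 1 + 8 * ((p : ℝ) ^ α - 1) / p ≤ 1 + 16 * α * (Real.log p / p) := by
    have : 8 * ((p : ℝ) ^ α - 1) / p ≤ 8 * (2 * (α * Real.log p)) / p := by
      gcongr
    have e : 8 * (2 * (α * Real.log p)) / p = 16 * α * (Real.log p / p) := by ring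
    linarith
  have h8 := Real.add_one_le_exp (16 * α * (Real.log p / p))
  linarith


/-- strip primes one after the other -/
lemma strip {y w Z : ℝ} (hw : 1 ≤ w) (hy : 0 < y) (hZ : w * y ≤ Z) : ∀ m : ℕ,
    (∀ l : ℕ, l.Prime → l ∣ m → (l : ℝ) < y) → w < m → ∃ m' : ℕ, m' ∣ m ∧ w < m' ∧ (m' : ℝ) ≤ Z := by
  intro m
  induction m using Nat.strong_induction_on with
  | _ m ih =>
    intro hs hm
    by_cases h : (m : ℝ) ≤ Z
    · exact ⟨m, dvd_rfl, hm, h⟩
    push Not at h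
    have hm1 : m ≠ 1 := by
      rintro rfl
      norm_num at hm
      linarith
    have hm0 : 0 < m := by
      rcases Nat.eq_zero_or_pos m with rfl | h0
      · norm_num at hm
        linarith
      · exact h0
    obtain ⟨l, hl, k, rfl⟩ := Nat.exists_prime_and_dvd hm1
    have hk0 : 0 < k := Nat.pos_of_mul_pos_left hm0 |> fun _ => by
      rcases Nat.eq_zero_or_pos k with rfl | h0
      · simp at hm0
      · exact h0
    have hly := hs l hl (dvd_mul_right _ _)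
    have hl0 : (0 : ℝ) < l := by exact_mod_cast hl.pos
    have hwk : w < k := by
      by_contra hcon
      push Not at hcon
      have hkk : (0 : ℝ) < k := by exact_mod_cast hk0
      have : ((l * k : ℕ) : ℝ) ≤ Z := by
        push_cast
        calc (l : ℝ) * k ≤ y * w := by
              apply mul_le_mul hly.le hcon hkk.le hy.le
          _ = w * y := mul_comm _ _
          _ ≤ Z := hZ
      linarith
    have hlt : k < l * k := by
      nlinarith [hl.two_le]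
    obtain ⟨m', h1, h2, h3⟩ := ih k hlt (fun q hq hqk => hs q hq (hqk.mul_left _)) hwk
    exact ⟨m', h1.mul_left _, h2, h3⟩


/-- the conditions on `N` -/
lemma eventually_N (B u NU NV : ℕ) {c : ℝ} (hc : 0 < c) : ∃ N₀ : ℕ, ∀ N : ℕ, N₀ ≤ N →
    NU ≤ N ∧ NV ≤ N ∧ Real.exp 1 ≤ Real.log N ∧
    Real.log N ^ (B * u) * Real.log N ^ B ≤ (N : ℝ) ^ (1 / 20 : ℝ) ∧
    Real.log N ^ (B + 2) * Real.exp u ≤ c * N := by
  have e1 : ∀ᶠ N : ℕ in Filter.atTop, NU ≤ N := Filter.eventually_ge_atTop NU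
  have e2 : ∀ᶠ N : ℕ in Filter.atTop, NV ≤ N := Filter.eventually_ge_atTop NV
  have hlog : Filter.Tendsto (fun N : ℕ => Real.log N) Filter.atTop Filter.atTop :=
    Real.tendsto_log_atTop.comp tendsto_natCast_atTop_atTop
  have e3 : ∀ᶠ N : ℕ in Filter.atTop, Real.exp 1 ≤ Real.log N :=
    hlog.eventually_ge_atTop _
  have e4 : ∀ᶠ N : ℕ in Filter.atTop,
      Real.log N ^ (B * u) * Real.log N ^ B ≤ (N : ℝ) ^ (1 / 20 : ℝ) := by
    have h := (isLittleO_log_rpow_rpow_atTop (s := (1 / 20 : ℝ)) ((B * u + B : ℕ) : ℝ)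
      (by norm_num)).bound (c := 1) one_pos
    filter_upwards [tendsto_natCast_atTop_atTop.eventually h, e3] with N hN h3
    have hL : 0 ≤ Real.log (N : ℝ) := (Real.exp_pos 1).le.trans h3
    rw [Real.rpow_natCast, Real.norm_of_nonneg (by positivity),
      Real.norm_of_nonneg (by positivity), one_mul] at hN
    rw [← pow_add]
    exact hN
  have e5 : ∀ᶠ N : ℕ in Filter.atTop, Real.log N ^ (B + 2) * Real.exp u ≤ c * N := by
    have h := (isLittleO_log_rpow_rpow_atTop (s := (1 : ℝ)) ((B + 2 : ℕ) : ℝ)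
      (by norm_num)).bound (c := c * Real.exp (-(u : ℝ))) (by positivity)
    filter_upwards [tendsto_natCast_atTop_atTop.eventually h, e3] with N hN h3
    have hL : 0 ≤ Real.log (N : ℝ) := (Real.exp_pos 1).le.trans h3
    rw [Real.rpow_natCast, Real.norm_of_nonneg (by positivity),
      Real.norm_of_nonneg (by positivity), Real.rpow_one] at hN
    calc Real.log N ^ (B + 2) * Real.exp u ≤ c * Real.exp (-(u : ℝ)) * N * Real.exp u := by
          gcongr
      _ = c * N * (Real.exp (-(u : ℝ)) * Real.exp u) := by ring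
      _ = c * N := by rw [← Real.exp_add]; simp
  obtain ⟨N₀, h⟩ := Filter.eventually_atTop.1 (e1.and (e2.and (e3.and (e4.and e5))))
  exact ⟨N₀, fun N hN => h N hN⟩

/-- the smooth sum with `α = 1 / log y` -/
lemma smooth_sum {CM : ℝ} (hCM : ∀ N : ℕ, 1 ≤ N →
    |∑ p ∈ (Finset.Icc 1 N).filter Nat.Prime, Real.log p / p - Real.log N| ≤ CM) {y : ℝ}
    (hy : 2 ≤ Real.log y) (hy1 : 1 < y) (T : Finset ℕ)
    (hT : ∀ d ∈ T, d ≠ 0 ∧ ∀ l : ℕ, l.Prime → l ∣ d → (l : ℝ) < y) :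
    ∑ d ∈ T, Fq (1 / Real.log y) d ≤ Real.exp (16 * (1 + |CM|)) := by
  have hα : (0 : ℝ) ≤ 1 / Real.log y := by positivity
  have hα2 : 1 / Real.log y ≤ 1 / 2 := one_div_le_one_div_of_le (by norm_num) hy
  have hlt : ∀ p : ℕ, p < ⌈y⌉₊ → (p : ℝ) < y := fun p hp => Nat.lt_ceil.1 hp
  refine (rankin_sum hα hα2 ⌈y⌉₊ ?_ T ?_).trans ?_
  · intro p hp hpY
    have hp0 : (0 : ℝ) < p := by exact_mod_cast hp.pos
    have := Real.log_le_log hp0 (hlt p hpY).le
    rw [one_div, inv_mul_le_iff₀ (by linarith)]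
    linarith
  · intro d hd
    exact ⟨(hT d hd).1, fun l hl hld => Nat.lt_ceil.2 ((hT d hd).2 l hl hld)⟩
  · apply Real.exp_le_exp.2
    have hsub : (⌈y⌉₊).primesBelow ⊆ (Finset.Icc 1 ⌊y⌋₊).filter Nat.Prime := by
      intro p hp
      have hpp := Nat.prime_of_mem_primesBelow hp
      have hpY := Nat.lt_of_mem_primesBelow hp
      rw [Finset.mem_filter, Finset.mem_Icc]
      exact ⟨⟨hpp.one_lt.le, Nat.le_floor (hlt p hpY).le⟩, hpp⟩
    have h1 : ∑ p ∈ (⌈y⌉₊).primesBelow, Real.log p / p ≤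
        ∑ p ∈ (Finset.Icc 1 ⌊y⌋₊).filter Nat.Prime, Real.log p / p := by
      refine Finset.sum_le_sum_of_subset_of_nonneg hsub fun p hp _ => ?_
      have : 1 ≤ p := (Finset.mem_Icc.1 (Finset.mem_filter.1 hp).1).1
      have h1p : (1 : ℝ) ≤ p := by exact_mod_cast this
      exact div_nonneg (Real.log_nonneg h1p) (by linarith)
    have hfl : 1 ≤ ⌊y⌋₊ := Nat.le_floor (by simpa using hy1.le)
    have h2 := (abs_le.1 (hCM ⌊y⌋₊ hfl)).2
    have hfl' : (0 : ℝ) < (⌊y⌋₊ : ℝ) := by exact_mod_cast hfl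
    have h3 : Real.log (⌊y⌋₊ : ℝ) ≤ Real.log y :=
      Real.log_le_log hfl' (Nat.floor_le (by linarith))
    have h4 : ∑ p ∈ (⌈y⌉₊).primesBelow, Real.log p / p ≤ Real.log y + |CM| := by
      have := le_abs_self CM
      linarith
    calc 16 * (1 / Real.log y) * ∑ p ∈ (⌈y⌉₊).primesBelow, Real.log p / p
        ≤ 16 * (1 / Real.log y) * (Real.log y + |CM|) := by
          gcongr
      _ = 16 * (1 + 1 / Real.log y * |CM|) := by
          field_simp
      _ ≤ 16 * (1 + 1 * |CM|) := by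
          gcongr
          linarith
      _ = 16 * (1 + |CM|) := by ring

theorem SMO (hUBS : St_UBS) (hVLB : St_VLB) : St_SMO := by
  classical
  intro B hB ε₁ hε hε1
  obtain ⟨CU, NU, hCU, hU⟩ := hUBS B hB ε₁ hε hε1
  obtain ⟨c₂, hc₂, hV⟩ := hVLB
  obtain ⟨NV, hV⟩ := hV B (by omega) ε₁ hε hε1
  obtain ⟨CM, hCM⟩ := mertens_log
  refine ⟨CU * Real.exp (16 * (1 + |CM|)) + 1, by positivity, fun u hu => ?_⟩
  obtain ⟨N₀, hN₀⟩ := eventually_N B u NU NV hc₂
  refine ⟨N₀, fun N hN a ha haN => ?_⟩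
  obtain ⟨h1, h2, h3, h4, h5⟩ := hN₀ N hN
  have hVN := (hV N h2).1
  set L := Real.log (N : ℝ) with hL
  set V := VV (P1 N B ε₁) with hVdef
  set y := L ^ B with hy
  set Z := (N : ℝ) ^ (1 / 20 : ℝ) with hZ
  have he1 : (2 : ℝ) < Real.exp 1 := by
    have := Real.exp_one_gt_d9
    linarith
  have hL2 : 2 < L := lt_of_lt_of_le he1 h3
  have hL0 : 0 < L := by linarith
  have hlogL : 1 ≤ Real.log L := by
    rw [Real.le_log_iff_exp_le hL0]
    exact h3
  have hy1 : 1 < y := one_lt_pow₀ (by linarith) (by omega)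
  have hlogy : 2 ≤ Real.log y := by
    rw [hy, Real.log_pow]
    have : (2 : ℝ) ≤ B := by exact_mod_cast hB
    nlinarith
  set α := 1 / Real.log y with hα
  have hα0 : 0 ≤ α := by positivity
  have hαy : α * Real.log y = 1 := by
    rw [hα]
    field_simp
  have hN0 : (0 : ℝ) < N := by
    rcases Nat.eq_zero_or_pos N with h0 | h0
    · exfalso
      rw [h0] at hL
      simp at hL
      linarith
    · exact_mod_cast h0
  have hVlow : c₂ / L ≤ V := by
    refine le_trans ?_ hVN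
    rw [div_eq_mul_inv]
    apply mul_le_mul_of_nonneg_left _ hc₂.le
    rw [inv_eq_one_div, div_le_div_iff₀ hL0 (by positivity)]
    have hB1 : (2 : ℝ) ≤ B := by exact_mod_cast hB
    have : ε₁ ≤ B * Real.log L := by nlinarith
    nlinarith
  have hV0 : 0 < V := lt_of_lt_of_le (by positivity) hVlow
  -- the set
  set A := (Icc 1 N).filter (fun p : ℕ => p.Prime ∧ (p : ℤ) ≠ a ∧ xx (P1 N B ε₁) (p - a) = 1 ∧
      ∃ m : ℕ, m ∣ (a - p).natAbs ∧ (∀ l : ℕ, l.Prime → l ∣ m → (l : ℝ) < y) ∧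
      L ^ (B * u) < m) with hA
  have hsplit : (A.card : ℝ) = ((A.filter (fun p : ℕ => (p : ℝ) < y)).card : ℝ) +
      ((A.filter (fun p : ℕ => ¬ (p : ℝ) < y)).card : ℝ) := by
    rw [← Nat.cast_add, Finset.card_filter_add_card_filter_not]
  -- small primes
  have hsmall : ((A.filter (fun p : ℕ => (p : ℝ) < y)).card : ℝ) ≤
      Real.exp (-(u : ℝ)) * V * (N / L) := by
    have c1 : (A.filter (fun p : ℕ => (p : ℝ) < y)).card ≤ ⌊y⌋₊ := by
      have : A.filter (fun p : ℕ => (p : ℝ) < y) ⊆ Icc 1 ⌊y⌋₊ := by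
        intro p hp
        rw [Finset.mem_filter] at hp
        have hp1 := (Finset.mem_Icc.1 (Finset.mem_filter.1 hp.1).1).1
        exact Finset.mem_Icc.2 ⟨hp1, Nat.le_floor hp.2.le⟩
      simpa using Finset.card_le_card this
    have c2 : ((A.filter (fun p : ℕ => (p : ℝ) < y)).card : ℝ) ≤ y :=
      (Nat.cast_le.2 c1).trans (Nat.floor_le (by linarith))
    refine c2.trans ?_
    have c3 : y ≤ Real.exp (-(u : ℝ)) * (c₂ / L) * (N / L) := by
      have e1 : Real.exp (-(u : ℝ)) * (c₂ / L) * (N / L) =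
          Real.exp (-(u : ℝ)) * (c₂ * N) / L ^ 2 := by
        field_simp
      rw [e1, le_div_iff₀ (by positivity)]
      have e2 : y * L ^ 2 = Real.exp (-(u : ℝ)) * (L ^ (B + 2) * Real.exp u) := by
        rw [show Real.exp (-(u : ℝ)) * (L ^ (B + 2) * Real.exp u) =
          L ^ (B + 2) * (Real.exp (-(u : ℝ)) * Real.exp u) by ring, ← Real.exp_add]
        rw [hy, ← pow_add]
        simp
      rw [e2]
      gcongr
    refine c3.trans ?_
    gcongr
  -- large primes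
  set T := (Icc 1 ⌊Z⌋₊).filter (fun d : ℕ => (∀ l : ℕ, l.Prime → l ∣ d → (l : ℝ) < y) ∧
    Int.gcd a d = 1) with hT
  have hZy : y ^ u * y ≤ Z := by
    have : y ^ u * y = L ^ (B * u) * L ^ B := by
      rw [hy, ← pow_mul]
    rw [this]
    exact h4
  have hpt : ∀ p ∈ A.filter (fun p : ℕ => ¬ (p : ℝ) < y),
      (1 : ℝ) ≤ Real.exp (-(u : ℝ)) * ∑ d ∈ T, if (d : ℤ) ∣ a - p then hf α d else 0 := by
    intro p hp
    rw [Finset.mem_filter, hA, Finset.mem_filter] at hp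
    obtain ⟨⟨hpN, hpp, hpa, hxx, m, hm, hms, hmu⟩, hpy⟩ := hp
    rw [pow_mul] at hmu
    obtain ⟨m', hm'm, hwm', hm'Z⟩ := strip (one_le_pow₀ hy1.le) (by linarith) hZy m hms hmu
    have hm's : ∀ l : ℕ, l.Prime → l ∣ m' → (l : ℝ) < y := fun l hl h => hms l hl (h.trans hm'm)
    have hm'a : (m' : ℤ) ∣ a - p := by
      exact Int.natCast_dvd.2 (hm'm.trans hm)
    have hm'0 : m' ≠ 0 := by
      rintro rfl
      have : (0 : ℝ) < y ^ u := by positivity
      push_cast at hwm'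
      linarith
    have hm'pos : (0 : ℝ) < m' := by exact_mod_cast Nat.pos_of_ne_zero hm'0
    have hcop : Int.gcd a m' = 1 := by
      by_contra hne
      obtain ⟨l, hl, hlg⟩ := Nat.exists_prime_and_dvd hne
      have l1 : (l : ℤ) ∣ a := (Int.natCast_dvd_natCast.2 hlg).trans (Int.gcd_dvd_left _ _)
      have l2 : (l : ℤ) ∣ m' := (Int.natCast_dvd_natCast.2 hlg).trans (Int.gcd_dvd_right _ _)
      have l3 : (l : ℤ) ∣ p := by
        have := dvd_sub l1 (l2.trans hm'a)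
        simpa using this
      have l4 : l = p := (Nat.prime_dvd_prime_iff_eq hl hpp).1 (Int.natCast_dvd_natCast.1 l3)
      have l5 := hm's l hl (Int.natCast_dvd_natCast.1 l2)
      rw [l4] at l5
      exact hpy l5
    have hdiv : (m'.divisors) ⊆ T := by
      intro d hd
      have hdm := Nat.dvd_of_mem_divisors hd
      rw [hT, Finset.mem_filter, Finset.mem_Icc]
      refine ⟨⟨Nat.pos_of_mem_divisors hd, Nat.le_floor ?_⟩, fun l hl h => hm's l hl (h.trans hdm), ?_⟩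
      · have : (d : ℝ) ≤ m' := by exact_mod_cast Nat.le_of_dvd (Nat.pos_of_ne_zero hm'0) hdm
        linarith
      · have : Int.gcd a d ∣ Int.gcd a m' :=
          Int.gcd_dvd_gcd_of_dvd_right _ (Int.natCast_dvd_natCast.2 hdm)
        rw [hcop] at this
        exact Nat.dvd_one.1 this
    have hsum : (m' : ℝ) ^ α ≤ ∑ d ∈ T, if (d : ℤ) ∣ a - p then hf α d else 0 := by
      rw [← hf_sum α hm'0]
      calc ∑ d ∈ m'.divisors, hf α d
          = ∑ d ∈ m'.divisors, if (d : ℤ) ∣ a - p then hf α d else 0 := by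
            refine Finset.sum_congr rfl fun d hd => ?_
            rw [if_pos]
            exact (Int.natCast_dvd_natCast.2 (Nat.dvd_of_mem_divisors hd)).trans hm'a
        _ ≤ _ := by
            refine Finset.sum_le_sum_of_subset_of_nonneg hdiv fun d _ _ => ?_
            split_ifs
            · exact hf_nonneg hα0 d
            · exact le_rfl
    have hbig : Real.exp u ≤ (m' : ℝ) ^ α := by
      rw [Real.rpow_def_of_pos hm'pos]
      apply Real.exp_le_exp.2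
      have : Real.log (y ^ u) ≤ Real.log m' := Real.log_le_log (by positivity) hwm'.le
      rw [Real.log_pow] at this
      calc (u : ℝ) = u * Real.log y * α := by rw [mul_assoc, mul_comm (Real.log y), hαy, mul_one]
        _ ≤ Real.log m' * α := by gcongr
    calc (1 : ℝ) = Real.exp (-(u : ℝ)) * Real.exp u := by rw [← Real.exp_add]; simp
      _ ≤ Real.exp (-(u : ℝ)) * ∑ d ∈ T, if (d : ℤ) ∣ a - p then hf α d else 0 := by
          gcongr
          exact hbig.trans hsum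
  have hlarge : ((A.filter (fun p : ℕ => ¬ (p : ℝ) < y)).card : ℝ) ≤
      CU * Real.exp (16 * (1 + |CM|)) * (Real.exp (-(u : ℝ)) * V * (N / L)) := by
    set A2 := A.filter (fun p : ℕ => ¬ (p : ℝ) < y) with hA2
    have d1 : (A2.card : ℝ) ≤ ∑ p ∈ A2, Real.exp (-(u : ℝ)) *
        ∑ d ∈ T, if (d : ℤ) ∣ a - p then hf α d else 0 := by
      rw [Finset.card_eq_sum_ones]
      push_cast
      exact Finset.sum_le_sum hpt
    have d2 : ∑ p ∈ A2, Real.exp (-(u : ℝ)) *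
        ∑ d ∈ T, (if (d : ℤ) ∣ a - p then hf α d else 0) =
        Real.exp (-(u : ℝ)) * ∑ d ∈ T, hf α d * ((A2.filter (fun p : ℕ => (d : ℤ) ∣ a - p)).card : ℝ) := by
      rw [← Finset.mul_sum, Finset.sum_comm]
      congr 1
      refine Finset.sum_congr rfl fun d _ => ?_
      rw [← Finset.sum_filter, Finset.sum_const, nsmul_eq_mul, mul_comm]
    have d3 : ∀ d ∈ T, hf α d * ((A2.filter (fun p : ℕ => (d : ℤ) ∣ a - p)).card : ℝ) ≤
        CU * V * (N / L) * Fq α d := by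
      intro d hd
      rw [hT, Finset.mem_filter, Finset.mem_Icc] at hd
      obtain ⟨⟨hd1, hdZ⟩, hds, hdg⟩ := hd
      have hdZ' : (d : ℝ) ≤ Z := by
        have h0 : (d : ℝ) ≤ (⌊Z⌋₊ : ℝ) := by exact_mod_cast hdZ
        exact h0.trans (Nat.floor_le (by positivity))
      have hUd := hU N h1 a ha haN d hd1 hdZ' hdg
      have hc : ((A2.filter (fun p : ℕ => (d : ℤ) ∣ a - p)).card : ℝ) ≤
          CU * (N / (Nat.totient d * L)) * V := by
        refine le_trans (Nat.cast_le.2 (Finset.card_le_card ?_)) hUd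
        intro p hp
        rw [Finset.mem_filter, hA2, Finset.mem_filter, hA, Finset.mem_filter] at hp
        obtain ⟨⟨⟨hpN, hpp, hpa, hxx, _⟩, _⟩, hpd⟩ := hp
        rw [Finset.mem_filter]
        exact ⟨hpN, hpp, hpd, hxx⟩
      have htot : (0 : ℝ) < (Nat.totient d : ℝ) := by
        exact_mod_cast Nat.totient_pos.2 hd1
      calc hf α d * ((A2.filter (fun p : ℕ => (d : ℤ) ∣ a - p)).card : ℝ)
          ≤ hf α d * (CU * (N / (Nat.totient d * L)) * V) :=
            mul_le_mul_of_nonneg_left hc (hf_nonneg hα0 d)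
        _ = CU * V * (N / L) * Fq α d := by
            unfold Fq
            field_simp
    have d4 : ∑ d ∈ T, Fq α d ≤ Real.exp (16 * (1 + |CM|)) := by
      refine smooth_sum hCM hlogy hy1 T fun d hd => ?_
      rw [hT, Finset.mem_filter, Finset.mem_Icc] at hd
      exact ⟨by omega, hd.2.1⟩
    calc (A2.card : ℝ) ≤ Real.exp (-(u : ℝ)) *
          ∑ d ∈ T, hf α d * ((A2.filter (fun p : ℕ => (d : ℤ) ∣ a - p)).card : ℝ) := by
          rw [← d2]
          exact d1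
      _ ≤ Real.exp (-(u : ℝ)) * ∑ d ∈ T, CU * V * (N / L) * Fq α d := by
          exact mul_le_mul_of_nonneg_left (Finset.sum_le_sum d3) (Real.exp_nonneg _)
      _ = Real.exp (-(u : ℝ)) * (CU * V * (N / L) * ∑ d ∈ T, Fq α d) := by
          rw [← Finset.mul_sum]
      _ ≤ Real.exp (-(u : ℝ)) * (CU * V * (N / L) * Real.exp (16 * (1 + |CM|))) := by
          gcongr
      _ = _ := by ring
  rw [hsplit]
  calc _ ≤ Real.exp (-(u : ℝ)) * V * (N / L) +
        CU * Real.exp (16 * (1 + |CM|)) * (Real.exp (-(u : ℝ)) * V * (N / L)) :=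
        add_le_add hsmall hlarge
    _ = _ := by ring

end Pool.Agent.W214.PL
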